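import Pool.Agent.Helper89.MG.Typf
import Pool.Agent.Helper81.MT.Glb

/-! MULTI-TYPE LAYER: images of systems of leaves under polynomial maps which are known to the base, with ARBITRARY
coefficients. If the image of the point is tame and if it is typically close to the value of the map at the point of the
chart, the map is typically tame on the whole unit cube of the parameter of the leaf (TYPD), and the images of the leaves
are leaves, on a typical event; the windows do not change. -/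

set_option autoImplicit false

namespace Pool.Agent.Helper63.MT

open Finset Filter Topology Matrix Pool.Agent.Helper69.RK Pool.Agent.Helper31.EC Pool.Agent.Helper31.EC.Sp
open Pool.Agent.Helper40.EL Pool.Agent.Helper89.LX Pool.Agent.Helper3.LF Pool.Agent.Helper84.MT

noncomputable section

variable {S T : Sp} {M M' κ : ℕ} {E E' : ℕ → ℕ} {ι : Type}

/-! ### typical events -/

theorem typ_all {ι : Type} [Finite ι] {A : ι → ∀ k, (S.F k).Ω → Prop} (h : ∀ i, Typ (A i)) :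
    Typ (fun k ω => ∀ i, A i k ω) := by
  classical
  have := Fintype.ofFinite ι
  have key : ∀ s : Finset ι, Typ (fun k ω => ∀ i ∈ s, A i k ω) := by
    intro s
    induction s using Finset.induction_on with
    | empty => exact Typ_true.mono (Eventually.of_forall fun k ω _ _ i hi => absurd hi (Finset.notMem_empty i))
    | insert i s hi ih =>
      refine ((h i).and ih).mono (Eventually.of_forall fun k ω _ h1 j hj => ?_)
      rcases Finset.mem_insert.mp hj with h2 | h2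
      · rw [h2]; exact h1.1
      · exact h1.2 j h2
  exact (key Finset.univ).mono (Eventually.of_forall fun k ω _ h1 i => h1 i (Finset.mem_univ i))

/-- tame bounds of finitely many typical events -/
theorem sub_all {ι : Type} [Finite ι] {K : ι → ℕ → ℝ} (h : ∀ i, S.Sub (K i)) :
    ∃ L : ℕ → ℝ, S.Sub L ∧ ∀ᶠ k in UF, ∀ i, K i k ≤ L k := by
  classical
  have := Fintype.ofFinite ι
  have key : ∀ s : Finset ι, ∃ L : ℕ → ℝ, S.Sub L ∧ ∀ᶠ k in UF, ∀ i ∈ s, K i k ≤ L k := by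
    intro s
    induction s using Finset.induction_on with
    | empty => exact ⟨fun _ => 0, S.Sub_const le_rfl, Eventually.of_forall fun k i hi => absurd hi (Finset.notMem_empty i)⟩
    | insert i s hi ih =>
      obtain ⟨L, hL, hb⟩ := ih
      refine ⟨fun k => K i k + L k, (h i).add hL, ?_⟩
      filter_upwards [hb, hL.1, (h i).1] with k h1 h2 h3 j hj
      rcases Finset.mem_insert.mp hj with h4 | h4
      · rw [h4]; linarith
      · have := h1 j h4
        linarith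
  obtain ⟨L, hL, hb⟩ := key Finset.univ
  exact ⟨L, hL, hb.mono fun k hk i => hk i (Finset.mem_univ i)⟩

/-! ### the closed cube -/

/-- functions of the algebra of the leaf: bounds on the open cube give bounds on the closed cube -/
theorem leaf_closed {Q : S.VV M} (l : Leaf S Q E) (D : ℕ) : ∃ K : ℕ → ℝ, S.Sub K ∧ ∀ᶠ k in UF, ∀ ω,
    (S.F k).μ ω ≠ 0 → ∀ f ∈ l.al k ω D, ∀ A : ℝ, (∀ y : Fin l.e → ℝ, (∀ i, |y i - l.Y.v k ω i| < 1) → |f y| ≤ A) →
      ∀ y : Fin l.e → ℝ, (∀ i, |y i - l.Y.v k ω i| ≤ 1) → |f y| ≤ K k * A := by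
  obtain ⟨K, hK, hb⟩ := l.seg D
  have hN : (0 : ℝ) < (E D : ℝ) + 1 := by positivity
  refine ⟨fun k => K k * ((E D : ℝ) + 1) ^ E D, hK.mul (S.Sub_const (by positivity)), ?_⟩
  filter_upwards [hb] with k h1 ω hω f hf A hA y hy
  have h2 := (h1 ω hω f hf (l.Y.v k ω) y (fun i => by rw [sub_self, abs_zero]; exact zero_le_one) hy).1
    (fun i => (i : ℝ) / ((E D : ℝ) + 1)) (1 / ((E D : ℝ) + 1)) A (by positivity) (fun i => ?_) (fun i j hij => ?_)
    (fun i => ?_) 1 ⟨zero_le_one, le_rfl⟩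
  · have e1 : (fun i => l.Y.v k ω i + 1 * (y i - l.Y.v k ω i)) = y := by
      funext i
      ring
    beta_reduce at h2
    rw [e1] at h2
    refine h2.trans (le_of_eq ?_)
    rw [one_div_one_div]
  · have h3 : ((i : ℕ) : ℝ) ≤ (E D : ℝ) := by exact_mod_cast Nat.lt_succ_iff.mp i.2
    exact ⟨by positivity, by rw [div_le_one hN]; linarith⟩
  · rw [← sub_div, abs_div, abs_of_pos hN]
    apply div_le_div_of_nonneg_right _ hN.le
    have h3 : (i : ℕ) ≠ (j : ℕ) := fun h => hij (Fin.ext h)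
    have h4 : (1 : ℤ) ≤ |((i : ℕ) : ℤ) - ((j : ℕ) : ℤ)| := Int.one_le_abs (sub_ne_zero.mpr (by exact_mod_cast h3))
    have h5 : ((1 : ℤ) : ℝ) ≤ ((|((i : ℕ) : ℤ) - ((j : ℕ) : ℤ)| : ℤ) : ℝ) := by exact_mod_cast h4
    rw [Int.cast_abs, Int.cast_sub, Int.cast_one, Int.cast_natCast, Int.cast_natCast] at h5
    exact h5
  · refine hA _ fun j => ?_
    have h3 : ((i : ℕ) : ℝ) ≤ (E D : ℝ) := by exact_mod_cast Nat.lt_succ_iff.mp i.2
    have e1 : l.Y.v k ω j + (i : ℝ) / ((E D : ℝ) + 1) * (y j - l.Y.v k ω j) - l.Y.v k ω j =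
        (i : ℝ) / ((E D : ℝ) + 1) * (y j - l.Y.v k ω j) := by ring
    rw [e1, abs_mul, abs_of_nonneg (show (0 : ℝ) ≤ (i : ℝ) / ((E D : ℝ) + 1) by positivity)]
    have h4 : (i : ℝ) / ((E D : ℝ) + 1) < 1 := by rw [div_lt_one hN]; linarith
    have h5 := hy j
    have h6 := abs_nonneg (y j - l.Y.v k ω j)
    have h7 : (0 : ℝ) ≤ (i : ℝ) / ((E D : ℝ) + 1) := by positivity
    nlinarith

/-! ### maps -/

/-- A POLYNOMIAL MAP of degree at most `κ` from `R ^ M` to `R ^ M'`, known to the base, with arbitrary coefficients -/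
structure UMap (S : Sp) (M M' κ : ℕ) where
  G : ∀ k, (S.F k).Ω → Fin M' → MvPolynomial (Fin M) ℝ
  deg : ∀ k ω i, (G k ω i).totalDegree ≤ κ
  fn : ∀ᶠ k in UF, ∀ ω ω', (S.F k).μ ω ≠ 0 → (S.F k).μ ω' ≠ 0 → (S.F k).Z ω ω' → G k ω = G k ω'

/-- maps with tame coefficients -/
def UMap.ofP (P : PMap S M M' κ) : UMap S M M' κ := ⟨P.G, P.deg, P.fn⟩

/-- the value of the map -/
def UMap.ev (P : UMap S M M' κ) (k : ℕ) (ω : (S.F k).Ω) (x : Fin M → ℝ) : Fin M' → ℝ :=
  fun i => MvPolynomial.eval x (P.G k ω i)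

/-- TYPICALLY THE MAP IS TAME ON THE UNIT CUBE of the parameter, if it is typically tame at the parameter -/
theorem img_bd {Q : S.VV M} (l : Leaf S Q E) (P : UMap S M M' κ) (hY : ∃ K : ℕ → ℝ, S.Sub K ∧
      Typ (fun k ω => ∀ j, |P.ev k ω (l.F k ω (l.Y.v k ω)) j| ≤ K k)) : ∃ K : ℕ → ℝ, S.Sub K ∧
      Typ (fun k ω => ∀ y : Fin l.e → ℝ, (∀ i, |y i - l.Y.v k ω i| ≤ 1) → ∀ j, |P.ev k ω (l.F k ω y) j| ≤ K k) := by
  have key : ∀ j : Fin M', ∃ K : ℕ → ℝ, S.Sub K ∧ Typ (fun k ω => ∀ y : Fin l.e → ℝ,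
      (∀ i, |y i - l.Y.v k ω i| < 1) → |P.ev k ω (l.F k ω y) j| ≤ K k * |P.ev k ω (l.F k ω (l.Y.v k ω)) j|) := by
    intro j
    obtain ⟨K', hK', hT⟩ := typ_pol l (c := 0) le_rfl one_pos (fun k => FLab.triv (S.F k)) (by
      show Tendsto _ _ _
      simp only [FLab.triv_leak, zero_div]
      exact tendsto_const_nhds) (D := κ) (fun k w p => MvPolynomial.eval p (P.G k w j))
      (Eventually.of_forall fun k w _ => ⟨P.G k w j, by rw [one_mul]; exact P.deg k w j, rfl⟩)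
      (κ := fun _ => 1) (S.Sub_const zero_le_one) (by
        filter_upwards [P.fn] with k hk w w' hw hw' hZ _ _ _ p
        have h2 : P.G k w = P.G k w' := hk w w' hw hw' hZ
        rw [h2, one_mul])
    refine ⟨K', hK', Typ.mono (S := S) hT (Eventually.of_forall fun k ω _ h y hy => h y fun i => ?_)⟩
    rw [S.dl_zero]
    exact hy i
  choose K hK hT using key
  obtain ⟨L, hL, hLb⟩ := sub_all hK
  obtain ⟨K0, hK0, hT0⟩ := hY
  obtain ⟨C, hC, hCb⟩ := leaf_closed l κ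
  refine ⟨fun k => C k * (L k * K0 k), hC.mul (hL.mul hK0), ((typ_all hT).and hT0).mono ?_⟩
  filter_upwards [hLb, hCb, hL.1, hK0.1, l.eval_mem κ] with k h1 h2 h3 h4 h5 ω hω h6 y hy j
  refine h2 ω hω _ (h5 ω hω (P.G k ω j) (P.deg k ω j)) (L k * K0 k) (fun z hz => ?_) y hy
  exact (h6.1 j z hz).trans (mul_le_mul (h1 j) (h6.2 j) (abs_nonneg _) h3)

/-! ### images of leaves -/

/-- THE IMAGE OF A LEAF on an event on which the map is tame on the unit cube of the parameter and close to the new point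
at the parameter. The leaf, the parameter and the windows do not change. -/
def leafU {Q : S.VV M} (l : Leaf S Q E) (P : UMap S M M' κ) (hκ : 1 ≤ κ) (hE : ∀ D, E (κ * D) ≤ E' D) (Q' : S.VV M')
    (A : ∀ k, (S.F k).Ω → Prop) (hA : 0 < ul (S.pr A)) (hbd : ∃ K : ℕ → ℝ, S.Sub K ∧ ∀ᶠ k in UF, ∀ ω,
      (S.F k).μ ω ≠ 0 → A k ω → ∀ y : Fin l.e → ℝ, (∀ i, |y i - l.Y.v k ω i| ≤ 1) → ∀ j,
        |P.ev k ω (l.F k ω y) j| ≤ K k)
    (hpt : ∃ K : ℕ → ℝ, S.Sub K ∧ ∀ᶠ k in UF, ∀ ω, (S.F k).μ ω ≠ 0 → A k ω → ∀ j,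
      |Q'.v k ω j - P.ev k ω (l.F k ω (l.Y.v k ω)) j| ≤ K k * S.dl 1 k) : Leaf (S.rest A) (Q'.rest A) E' where
  e := l.e
  he := by
    have h1 := hE 0
    rw [mul_zero] at h1
    exact l.he.trans h1
  La := l.La
  Y := l.Y.rest A
  F := fun k ω y => P.ev k ω (l.F k ω y)
  fn := by
    filter_upwards [l.fn, P.fn] with k h1 h2 ω ω' a b z r
    have a' := ((S.F k).rest_supp (A k) ω a).1
    have b' := ((S.F k).rest_supp (A k) ω' b).1
    unfold UMap.ev
    rw [h1 ω ω' a' b' z r, h2 ω ω' a' b' z]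
  bd := by
    obtain ⟨K, hK, hb⟩ := hbd
    refine ⟨K, hK, ?_⟩
    filter_upwards [hb, pb_ne_zero hA] with k hk h0 ω hω y hy j
    obtain ⟨h1, h2⟩ := (S.F k).rest_supp (A k) ω hω
    exact hk ω h1 (h2 h0) y hy j
  al := fun k ω D => l.al k ω (κ * D)
  alg := by
    filter_upwards [l.alg] with k hk ω hω
    exact (hk ω ((S.F k).rest_supp (A k) ω hω).1).scale hκ
  crF := by
    filter_upwards [l.eval_mem κ] with k hk ω hω j
    show _ ∈ l.al k ω (κ * 1)
    rw [mul_one]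
    exact hk ω ((S.F k).rest_supp (A k) ω hω).1 (P.G k ω j) (P.deg k ω j)
  seg := by
    intro D
    obtain ⟨K, hK, hb⟩ := l.seg (κ * D)
    refine ⟨K, hK, ?_⟩
    filter_upwards [hb, hK.1] with k hk hK0 ω hω f hf y z hy hz
    obtain ⟨h1, h2⟩ := hk ω ((S.F k).rest_supp (A k) ω hω).1 f hf y z hy hz
    exact ⟨h1.mono (hE D) hK0 le_rfl, h2⟩
  pt := by
    obtain ⟨K, hK, hb⟩ := hpt
    refine ⟨K, hK, ?_⟩
    filter_upwards [hb, pb_ne_zero hA] with k hk h0 ω hω j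
    obtain ⟨h1, h2⟩ := (S.F k).rest_supp (A k) ω hω
    exact hk ω h1 (h2 h0) j
  full := ((l.im (Pj.id S) A hA).pull (Sp.imq (Pj.id S) A)).full

theorem leafU_win {Q : S.VV M} (l : Leaf S Q E) (P : UMap S M M' κ) (hκ : 1 ≤ κ) (hE : ∀ D, E (κ * D) ≤ E' D)
    (Q' : S.VV M') (A : ∀ k, (S.F k).Ω → Prop) (hA : 0 < ul (S.pr A)) (hbd) (hpt) (c : ℝ) :
    (leafU l P hκ hE Q' A hA hbd hpt).win c = (l.win c).rest A := rfl

/-! ### images of systems -/

/-- AN EVENT on which the image of the system is a system -/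
structure ImuE (s : MSys S M E ι) (P : UMap S M M' κ) (Q' : S.VV M') where
  A : ∀ k, (S.F k).Ω → Prop
  typ : Typ A
  bd : ∀ i, ∃ K : ℕ → ℝ, S.Sub K ∧ ∀ᶠ k in UF, ∀ ω, (S.F k).μ ω ≠ 0 → A k ω → ∀ y : Fin (s.lf i).e → ℝ,
    (∀ a, |y a - (s.lf i).Y.v k ω a| ≤ 1) → ∀ j, |P.ev k ω ((s.lf i).F k ω y) j| ≤ K k
  pt : ∀ i, ∃ K : ℕ → ℝ, S.Sub K ∧ ∀ᶠ k in UF, ∀ ω, (S.F k).μ ω ≠ 0 → A k ω → ∀ j,
    |Q'.v k ω j - P.ev k ω ((s.lf i).F k ω ((s.lf i).Y.v k ω)) j| ≤ K k * S.dl 1 k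

/-- IMU, FIRST HALF: such an event exists if the new point is typically close to the value of the map at the points of
the charts -/
theorem exists_imuE [Finite ι] (s : MSys S M E ι) (P : UMap S M M' κ) (Q' : S.VV M') (hQ : ∀ i, ∃ K : ℕ → ℝ, S.Sub K ∧
      Typ (fun k ω => ∀ j, |Q'.v k ω j - P.ev k ω ((s.lf i).F k ω ((s.lf i).Y.v k ω)) j| ≤ K k * S.dl 1 k)) :
    Nonempty (ImuE s P Q') := by
  choose K hK hT using hQ
  obtain ⟨R, hR, hRb⟩ := Q'.bd
  have h1 : ∀ i, ∃ K : ℕ → ℝ, S.Sub K ∧ Typ (fun k ω => ∀ y : Fin (s.lf i).e → ℝ,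
      (∀ a, |y a - (s.lf i).Y.v k ω a| ≤ 1) → ∀ j, |P.ev k ω ((s.lf i).F k ω y) j| ≤ K k) := by
    intro i
    refine img_bd (s.lf i) P ⟨fun k => R k + K i k, hR.add (hK i), (hT i).mono ?_⟩
    filter_upwards [hRb, (hK i).1] with k h2 h3 ω hω h4 j
    have h5 := h4 j
    have h6 := h2 ω hω j
    have h7 : K i k * S.dl 1 k ≤ K i k := by
      have := mul_le_mul_of_nonneg_left (dl_one_le S k) h3
      rwa [mul_one] at this
    have h8 := abs_sub_abs_le_abs_sub (P.ev k ω ((s.lf i).F k ω ((s.lf i).Y.v k ω)) j) (Q'.v k ω j)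
    rw [abs_sub_comm] at h8
    linarith
  choose L hL hT' using h1
  exact ⟨⟨_, (typ_all hT).and (typ_all hT'), fun i => ⟨L i, hL i, Eventually.of_forall fun k ω _ h => h.2 i⟩,
    fun i => ⟨K i, hK i, Eventually.of_forall fun k ω _ h => h.1 i⟩⟩⟩

/-- the conditions of the window `c` with a new point -/
def cndQ (s : MSys S M E ι) (Q' : S.VV M') (c : ℝ) : Option ι → Part S
  | none => pcd Q'
  | some i => (s.lf i).win c

namespace ImuE

variable {s : MSys S M E ι} {P : UMap S M M' κ} {Q' : S.VV M'} (e : ImuE s P Q')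

theorem pos : 0 < ul (S.pr e.A) := Sp.ul_pr_typ_pos e.A e.typ

/-- THE IMAGE OF THE SYSTEM on the typical event -/
def sys (hκ : 1 ≤ κ) (hE : ∀ D, E (κ * D) ≤ E' D) : MSys (S.rest e.A) M' E' ι :=
  ⟨Q'.rest e.A, fun i => leafU (s.lf i) P hκ hE Q' e.A e.pos (e.bd i) (e.pt i)⟩

/-- the image as a system of the space, with trivial leaves outside the event -/
def sysT (hκ : 1 ≤ κ) (hE : ∀ D, E (κ * D) ≤ E' D) (hE' : ∀ D, D ≤ E' D) : MSys S M' E' ι :=
  MSys.ofTyp Q' hE' e.typ fun i => leafU (s.lf i) P hκ hE Q' e.A e.pos (e.bd i) (e.pt i)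

variable {hκ : 1 ≤ κ} {hE : ∀ D, E (κ * D) ≤ E' D} {hE' : ∀ D, D ≤ E' D}

theorem sys_Q : (e.sys hκ hE).Q = Q'.rest e.A := rfl

theorem sysT_Q : (e.sysT hκ hE hE').Q = Q' := rfl

/-- the conditions of the image are the conditions of the system and the new point -/
theorem cnd_eq (c : ℝ) : (e.sys hκ hE).cnd c = fun i => (cndQ s Q' c i).rest e.A := by
  funext i
  rcases i with _ | i
  · rfl
  · rfl

/-- labels for the new conditions are labels of the image -/
theorem DMc_rst {c : ℝ} {l : Lab S} (h : l.DMf (cndQ s Q' c)) : (e.sys hκ hE).DMc c (l.rst e.A) := by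
  unfold MSys.DMc
  rw [e.cnd_eq]
  exact Lab.DMf.rst h e.A e.pos

/-- the image is connected iff the new conditions are connected -/
theorem Con_iff [Countable ι] {c : ℝ} : (e.sys hκ hE).Con c ↔ Lab.Conf (cndQ s Q' c) := by
  unfold MSys.Con
  rw [e.cnd_eq]
  have hB : (cndQ s Q' c none).Bd := pcd_Bd Q'
  have hB' : ((cndQ s Q' c none).rest fun k ω => ¬ e.A k ω).Bd := pcd_Bd (Q'.rest fun k ω => ¬ e.A k ω)
  exact ⟨fun h => Lab.Conf.of_typ (C := cndQ s Q' c) (i := none) h e.typ hB hB',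
    fun h => Lab.Conf.rest (C := cndQ s Q' c) (i := none) h e.pos hB⟩

theorem sysT_Con_iff [Countable ι] {c : ℝ} : (e.sysT hκ hE hE').Con c ↔ Lab.Conf (cndQ s Q' c) :=
  MSys.Con_ofTyp_iff.trans e.Con_iff

end ImuE

end

end Pool.Agent.Helper63.MT
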